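import Pool.Agent.V11316.CP2

/-!
# The order of magnitude of the number of Chen representations with a polynomial side condition

For even `n` we count the primes `p` for which `n - p` is a product of at most two large primes and the
value `f(p)` of a given polynomial (which may depend on `n`) is a product of boundedly many large primes,
in all intervals `(A, B]` with `B - A ≥ θ n`; and the progressions formed by these primes.
-/

set_option autoImplicit false

namespace Pool.Agent.Results.MP_629a14_nt.ChenWithPolynomial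

open Finset Filter

/-- `k ≠ 0` is up to the sign a product of at most `N` primes, all of them larger than `y` -/
def Rough (N : ℕ) (y : ℝ) (k : ℤ) : Prop :=
  k ≠ 0 ∧ k.natAbs.primeFactorsList.length ≤ N ∧ ∀ q : ℕ, q.Prime → (q : ℤ) ∣ k → y < q

/-- the polynomials of degree at most `r` with coefficients at most `n ^ K` for which there is no local
obstruction: for every prime `q` some `x (n - x) f(x)` is prime to `q` (for `q = 2` this implies that
`n` is even) -/
structure Poly (r K n : ℕ) (f : Polynomial ℤ) : Prop where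
  deg : f.natDegree ≤ r
  coeff : ∀ i, |f.coeff i| ≤ (n : ℤ) ^ K
  loc : ∀ q : ℕ, q.Prime → ∃ x : ℤ, ¬ (q : ℤ) ∣ x * (n - x) * f.eval x

open Classical in
/-- the primes `p > n ^ (1/t)` of `(A, B]` for which `n - p` is (up to the sign) a product of at most two
primes, larger than `n ^ (1/9)` and `n ^ (1/t)`, and `f(p)` is a product of at most `N` primes larger
than `n ^ (1/t)` -/
noncomputable def R (t N n : ℕ) (f : Polynomial ℤ) (A B : ℕ) : Finset ℕ :=
  (Ioc A B).filter (fun p : ℕ => p.Prime ∧ (n : ℝ) ^ (1 / (t : ℝ)) < p ∧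
    Rough 2 (max ((n : ℝ) ^ (1 / 9 : ℝ)) ((n : ℝ) ^ (1 / (t : ℝ)))) (n - p) ∧
    Rough N ((n : ℝ) ^ (1 / (t : ℝ))) (f.eval (p : ℤ)))

/-- the number of the classes `x` modulo `q` with `x (n - x) f(x) ≡ 0` -/
noncomputable def ρ (f : Polynomial ℤ) (n q : ℕ) : ℕ :=
  ((range q).filter (fun x : ℕ => (q : ℤ) ∣ (x : ℤ) * (n - x) * f.eval (x : ℤ))).card

/-- the sieve product -/
noncomputable def V (f : Polynomial ℤ) (n : ℕ) : ℝ :=
  ∏ q ∈ (Icc 1 n).filter Nat.Prime, (1 - (ρ f n q : ℝ) / q)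

open Classical in
/-- the number of the progressions `a, a + d, …, a + (k - 1) d` in `S` with `1 ≤ d ≤ D` -/
noncomputable def AP (k D : ℕ) (S : Finset ℕ) : ℕ :=
  ((S ×ˢ Icc 1 D).filter (fun q => ∀ j < k, q.1 + j * q.2 ∈ S)).card

theorem data {r K n : ℕ} {f : Polynomial ℤ} (h : Poly r K n f) (hn : 1 ≤ n) :
    Pool.Agent.V11316.CP.Data r K n f (n : ℤ) :=
  ⟨h.deg, h.coeff, by exact_mod_cast (by omega : n ≠ 0), by rw [abs_of_nonneg (by positivity)], h.loc⟩

/-- **Theorem.** Let `r` be given. There are `t` and `c, C > 0` such that for all `K`, all `θ > 0`, all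
large `n`, ALL polynomials `f` of degree at most `r` with coefficients at most `n ^ K` for which there is no
local obstruction, and all `0 ≤ A < B ≤ n` with `B - A ≥ θ n`: (1) the number of the primes `p` in `(A, B]`
for which `n - p` is a product of at most two primes `> n ^ (1/9)` and `f(p)` is a product of at most
`t (K + r + 1)` primes `> n ^ (1/t)` is between `c (B - A) V` and `C (B - A) V`, and
`V ≥ c / (log n) ^ (r + 2)`. (2) For all `k ≥ 1` and `δ > 0` there are `c', C' > 0` and `b` such that every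
set `S` of such primes contains, for all `D` between `(log n) ^ b` and `B - A`, at most
`C' (B - A) D V ^ k` progressions of `k` terms with difference at most `D`; at least `c' (B - A) D V ^ k`
of them if `S` contains at least `δ` times all such primes; and if it contains at least
`δ (B - A) D V ^ k` of them then it contains at least `c'` times all such primes. -/
theorem result (r : ℕ) : ∃ t : ℕ, 1 ≤ t ∧ ∃ c C : ℝ, 0 < c ∧ 0 < C ∧
    (∀ (K : ℕ) (θ : ℝ), 0 < θ → ∃ n₀ : ℕ, ∀ n : ℕ, n₀ ≤ n → ∀ f : Polynomial ℤ, Poly r K n f →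
      c / Real.log n ^ (r + 2) ≤ V f n ∧
      ∀ A B : ℕ, B ≤ n → θ * n ≤ (B : ℝ) - A →
        c * (((B : ℝ) - A) * V f n) ≤ ((R t (t * (K + r + 1)) n f A B).card : ℝ) ∧
        ((R t (t * (K + r + 1)) n f A B).card : ℝ) ≤ C * (((B : ℝ) - A) * V f n)) ∧
    (∀ k : ℕ, 1 ≤ k → ∀ δ : ℝ, 0 < δ → ∃ c' C' : ℝ, 0 < c' ∧ 0 < C' ∧ ∃ b : ℕ, ∀ (K : ℕ) (θ : ℝ),
      0 < θ → ∃ n₀ : ℕ, ∀ n : ℕ, n₀ ≤ n → ∀ f : Polynomial ℤ, Poly r K n f →
      ∀ A B : ℕ, B ≤ n → θ * n ≤ (B : ℝ) - A → ∀ D : ℕ, Real.log n ^ b ≤ D → (D : ℝ) ≤ (B : ℝ) - A →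
      ∀ S : Finset ℕ, S ⊆ R t (t * (K + r + 1)) n f A B →
        (AP k D S : ℝ) ≤ C' * (((B : ℝ) - A) * D * V f n ^ k) ∧
        (δ * ((R t (t * (K + r + 1)) n f A B).card : ℝ) ≤ S.card →
          c' * (((B : ℝ) - A) * D * V f n ^ k) ≤ (AP k D S : ℝ)) ∧
        (δ * (((B : ℝ) - A) * D * V f n ^ k) ≤ (AP k D S : ℝ) →
          c' * ((R t (t * (K + r + 1)) n f A B).card : ℝ) ≤ S.card)) := by
  obtain ⟨t, ht, c, C, hc, hC, H1, H2⟩ := Pool.Agent.V11316.CP.poly r
  refine ⟨t, ht, c, C, hc, hC, ?_, ?_⟩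
  · intro K θ hθ
    obtain ⟨X₀, h1⟩ := H1 K θ hθ
    exact ⟨max X₀ 1, fun n hn f hf => h1 n ((le_max_left _ _).trans hn) f n
      (data hf ((le_max_right _ _).trans hn))⟩
  · intro k hk δ hδ
    obtain ⟨c', C', hc', hC', b, h1⟩ := H2 k hk δ hδ
    refine ⟨c', C', hc', hC', b, fun K θ hθ => ?_⟩
    obtain ⟨X₀, h2⟩ := h1 K θ hθ
    exact ⟨max X₀ 1, fun n hn f hf A B hB hAB D hD1 hD2 S hS =>
      h2 n ((le_max_left _ _).trans hn) f n (data hf ((le_max_right _ _).trans hn))
        A B hB hAB D hD1 hD2 S hS⟩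

end Pool.Agent.Results.MP_629a14_nt.ChenWithPolynomial
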