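import Pool.Agent.V11290.FD.Gold
import Pool.Agent.TH894.SM0

/-!
# Goldbach representation numbers near `t α + s`, for almost every `α` of a set of positive Fourier dimension

Let `μ` be ANY probability measure on a compact subset of `(0, ∞)` whose Fourier transform decays like some power,
`|μ^(ξ)| ≤ C |ξ| ^ (-σ)` with an arbitrarily small `σ > 0`. (Such measures live on many sets of Lebesgue measure zero
and of arbitrarily small dimension: on the badly approximable numbers with bounded partial quotients (Kaufman), on the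
sets of `τ`-well approximable numbers (Kaufman), on limit sets of convex cocompact Fuchsian groups (Bourgain, Dyatlov), on random
Salem sets, ...). Let `t j ≥ 2`, `j ∈ J`, be numbers for which `∑ 1 / log ^ V (t j)` converges for some `V` (for instance
`t j = 2 ^ j`, or any sequence with at most `log ^ O(1) X` members up to `X`), and let `0 ≤ s j ≤ B t j` be arbitrary.
Then for `μ`-almost every `α`, for every `A` and `ε > 0` and for all but finitely many `j`: ALL even `n > 0` at a
distance of at most `log ^ A (t j)` from `t j α + s j` have the predicted number of representations as a sum of two primes,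
up to a relative error of `ε`; in particular this number has the order of magnitude `n² / (φ(n) log² n)`. In other
words: the set of the `α` for which this fails has Fourier dimension `0`.

Proof: the law of a random rounding of `t α` has a small characteristic function away from the integers (a Fourier
series with the coefficients `sinc²`), the theorem of the library W93.AU on random integers with a small characteristic
function (starting files) is applied to it, and then the lemma of Borel and Cantelli.

Definitions used from `Pool.Agent.H560R3.GB` (starting files): `C₂`: the twin prime constant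
`∏_{p > 2} (1 - 1 / (p - 1) ^ 2)`; `sing n`: the singular series `2 C₂ ∏_{p ∣ n, p > 2} (p - 1) / (p - 2)`; `g n`: the
number of ordered representations of `n` as a sum of two primes (`r₂(n; ℙ)` in the problem);
`HL n = sing n * n / log ^ 2 n`: the prediction of Hardy and Littlewood for `g n`.
-/

set_option autoImplicit false

namespace Pool.Agent.Results.MP_629a14_nt.FourierDecay

open MeasureTheory Pool.Agent.H560R3.GB

/-- (1) the number of representations of `n` as a sum of two primes agrees with the prediction of Hardy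
and Littlewood up to a relative error of at most `ε`; (2) it lies between `(1 - ε) C₂` and `1 + ε` times
`n² / (φ(n) log² n)`. -/
def Holds (ε : ℝ) (n : ℕ) : Prop :=
  |(g n : ℝ) - HL n| ≤ ε * HL n ∧
  (1 - ε) * C₂ * ((n : ℝ) ^ 2 / (n.totient * Real.log n ^ 2)) ≤ g n ∧
  (g n : ℝ) ≤ (1 + ε) * ((n : ℝ) ^ 2 / (n.totient * Real.log n ^ 2))

lemma C₂_nonneg : 0 ≤ C₂ := by
  unfold C₂
  apply Real.iInf_nonneg
  intro z
  apply Finset.prod_nonneg
  intro p hp
  rw [Finset.mem_filter, Finset.mem_Icc] at hp
  exact (Pool.Agent.TH894.SM.fac_pos p hp.1.1).le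

lemma holds_of (ε : ℝ) (n : ℕ) (hn : 2 ≤ n) (h2 : 2 ∣ n) (h1 : |(g n : ℝ) - HL n| ≤ ε * HL n) (hε : 0 < ε) : Holds ε n := by
  have hn0 : n ≠ 0 := by omega
  have hnr : (0 : ℝ) < n := by exact_mod_cast Nat.pos_of_ne_zero hn0
  have hl : 0 < Real.log n := Real.log_pos (by exact_mod_cast (by omega : 1 < n))
  have ht : (0 : ℝ) < n.totient := by exact_mod_cast Nat.totient_pos.2 (Nat.pos_of_ne_zero hn0)
  obtain ⟨s1, s2⟩ := Pool.Agent.TH894.SM.sing_tot n hn0 h2
  have hC := C₂_nonneg
  obtain ⟨Q, hQ⟩ : ∃ Q : ℝ, Q = n / Real.log n ^ 2 := ⟨_, rfl⟩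
  have hQ0 : 0 < Q := by rw [hQ]; positivity
  have e : (n : ℝ) ^ 2 / (n.totient * Real.log n ^ 2) = n / n.totient * Q := by
    rw [hQ]
    field_simp
  have hHL : HL n = sing n * Q := by
    unfold HL
    rw [hQ]
  have hR0 : 0 < (n : ℝ) / n.totient := by positivity
  refine ⟨h1, ?_, ?_⟩
  · rw [e]
    rw [hHL, abs_le] at h1
    rcases le_or_gt ε 1 with hε1 | hε1
    · have h3 : (1 - ε) * (C₂ * (n / n.totient) * Q) ≤ (1 - ε) * (sing n * Q) := by
        apply mul_le_mul_of_nonneg_left _ (by linarith)
        exact mul_le_mul_of_nonneg_right s1 hQ0.le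
      have e2 : (1 - ε) * C₂ * (n / n.totient * Q) = (1 - ε) * (C₂ * (n / n.totient) * Q) := by ring
      rw [e2]
      linarith [h1.1]
    · have h3 : (1 - ε) * C₂ * (n / n.totient * Q) ≤ 0 := by
        apply mul_nonpos_of_nonpos_of_nonneg _ (by positivity)
        exact mul_nonpos_of_nonpos_of_nonneg (by linarith) hC
      exact h3.trans (Nat.cast_nonneg _)
  · rw [e]
    rw [hHL, abs_le] at h1
    have h3 : (1 + ε) * (sing n * Q) ≤ (1 + ε) * (n / n.totient * Q) := by
      apply mul_le_mul_of_nonneg_left _ (by linarith)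
      exact mul_le_mul_of_nonneg_right s2 hQ0.le
    linarith [h1.2]

/-- Let `μ` be a probability measure on an interval `[a, B]`, `a > 0`, with `|μ^(ξ)| ≤ C |ξ| ^ (-σ)` for `|ξ| ≥ 1` and
some `C` and `σ > 0`. Let `t j ≥ 2` and `0 ≤ s j ≤ B t j` be real numbers, where `j` ranges over a set `J`, such that the
sum of the `1 / log ^ V (t j)` converges for some `V`. Then for `μ`-almost every `α`, for every `A` and every `ε > 0`,
for all but finitely many `j`, ALL the positive even integers `n` with `|n - (t j α + s j)| ≤ log ^ A (t j)` satisfy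
`Holds ε`: the number of the representations of `n` as a sum of two primes agrees with the prediction of Hardy and
Littlewood up to a relative error of `ε`, and lies between `(1 - ε) C₂` and `1 + ε` times `n² / (φ(n) log² n)`. -/
theorem result (μ : Measure ℝ) [IsProbabilityMeasure μ] (a B : ℝ) (ha : 0 < a) (hμ : ∀ᵐ α ∂μ, a ≤ α ∧ α ≤ B)
    (C σ : ℝ) (hσ : 0 < σ) (hdec : ∀ ξ : ℝ, 1 ≤ |ξ| → ‖charFun μ ξ‖ ≤ C * |ξ| ^ (-σ))
    (J : Type) (t s : J → ℝ) (ht : ∀ j, 2 ≤ t j) (hs : ∀ j, 0 ≤ s j ∧ s j ≤ B * t j)
    (hsum : ∃ V : ℕ, Summable fun j => 1 / Real.log (t j) ^ V) :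
    ∀ᵐ α ∂μ, ∀ (A : ℕ) (ε : ℝ), 0 < ε →
      {j | ¬ ∀ n : ℕ, 0 < n → 2 ∣ n → |(n : ℝ) - (t j * α + s j)| ≤ Real.log (t j) ^ A → Holds ε n}.Finite := by
  obtain ⟨V, hV⟩ := hsum
  have h := Pool.Agent.V11290.FD.gold_ae a B C σ ha hσ μ hdec hμ t s ht V hV hs
  filter_upwards [h] with α hα A ε hε
  refine (hα A ε hε).subset ?_
  intro j hj
  rw [Set.mem_ofPred_eq] at hj ⊢
  push Not at hj
  obtain ⟨n, hn0, hn2, hn3, hn4⟩ := hj
  refine ⟨n, hn0, hn2, hn3, fun hc => hn4 ?_⟩
  exact holds_of ε n (Nat.le_of_dvd hn0 hn2) hn2 hc.1 hε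

end Pool.Agent.Results.MP_629a14_nt.FourierDecay
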