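import Pool.Agent.TH882.J5

/-!
# The order of magnitude of the Goldbach representations with an isolated prime, and with a crowded prime

The second half (crowded primes) combines the library theorem on Goldbach representations with a prime of
a set which is dense in most residue classes (`Pool.Agent.TH882.JS.goldbach_most`) with the library
theorem on primes with several close neighbours (`Pool.Agent.TH882.JS.KP_most`); the first half (isolated
primes) is `Pool.Agent.TH882.IS.goldbach_iso`.
-/

set_option autoImplicit false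

open Finset Filter Topology

namespace Pool.Agent.Results.MP_629a14_nt.IsolatedAndCrowdedPrimes

/-- The number of the primes `p < N` with `N - p` prime such that no other prime is at distance at most
`L log N` from `p`. -/
noncomputable def isolatedRep (L : ℝ) (N : ℕ) : ℕ :=
  {p : ℕ | p < N ∧ p.Prime ∧ (N - p).Prime ∧
    ∀ q : ℕ, q.Prime → |(q : ℝ) - p| ≤ L * Real.log N → q = p}.ncard

/-- The number of the primes `p < N` with `N - p` prime such that at least `m` other primes are at
distance at most `ε log N` from `p`. -/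
noncomputable def crowdedRep (m : ℕ) (ε : ℝ) (N : ℕ) : ℕ :=
  {p : ℕ | p < N ∧ p.Prime ∧ (N - p).Prime ∧
    m ≤ {q : ℕ | q.Prime ∧ q ≠ p ∧ |(q : ℝ) - p| ≤ ε * Real.log N}.ncard}.ncard

/-- The order of magnitude `N ^ 2 / (φ(N) (log N) ^ 2)` of the question. -/
noncomputable def order (N : ℕ) : ℝ := (N : ℝ) ^ 2 / (Nat.totient N * Real.log N ^ 2)

/-- The even numbers `1 ≤ N ≤ x` with `r N < c * order N`. -/
def exceptions (r : ℕ → ℕ) (c : ℝ) (x : ℕ) : Set ℕ :=
  {N : ℕ | 1 ≤ N ∧ N ≤ x ∧ Even N ∧ (r N : ℝ) < c * order N}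

open Classical in
theorem isolated (L : ℝ) (hL : 0 < L) : ∃ c : ℝ, 0 < c ∧
    Tendsto (fun x : ℕ => ((exceptions (isolatedRep L) c x).ncard : ℝ) / x) atTop (𝓝 0) := by
  obtain ⟨c, hc, h⟩ := Pool.Agent.TH882.IS.goldbach_iso L hL
  refine ⟨c, hc, ?_⟩
  refine tendsto_of_tendsto_of_tendsto_of_le_of_le tendsto_const_nhds h
    (fun x => by positivity) fun x => ?_
  apply div_le_div_of_nonneg_right _ (Nat.cast_nonneg x)
  rw [← Set.ncard_coe_finset]
  apply Nat.cast_le.2
  apply Set.ncard_le_ncard _ (finite_toSet _)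
  rintro N ⟨h1, h2, h3, h4⟩
  rw [mem_coe, mem_filter, mem_Icc]
  refine ⟨⟨h1, h2⟩, h3, lt_of_le_of_lt ?_ h4⟩
  apply Nat.cast_le.2
  unfold isolatedRep
  rw [← Set.ncard_coe_finset]
  apply Set.ncard_le_ncard
  · intro p hp
    unfold Pool.Agent.TH882.IS.RG at hp
    rw [mem_coe, mem_filter, mem_range] at hp
    obtain ⟨hp1, hp2, hp3, hp4⟩ := hp
    refine ⟨hp1, hp2, hp3, fun q hq hqp => ?_⟩
    have h5 := abs_le.1 hqp
    exact hp4 q hq (by linarith [h5.2]) (by linarith [h5.1])
  · apply (finite_toSet (range N)).subset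
    rintro p ⟨hp, -⟩
    rw [mem_coe, mem_range]
    exact hp

open Classical in
theorem crowded (m : ℕ) (ε κ : ℝ) (hε : 0 < ε) (hκ : 0 < κ) : ∃ c : ℝ, 0 < c ∧
    ∀ᶠ x : ℕ in atTop, ((exceptions (crowdedRep m ε) c x).ncard : ℝ) ≤ κ * x := by
  obtain ⟨c, hc, X₀, h⟩ := Pool.Agent.TH882.JS.goldbach_most
    (Pool.Agent.TH882.JS.KP m ε) (Pool.Agent.TH882.JS.KP_most m ε hε) (κ / 2) (by positivity)
  refine ⟨c, hc, ?_⟩
  have key : ∃ x₀ : ℕ, ∀ x : ℕ, x₀ ≤ x → (((Icc 1 x).filter (fun N => Even N ∧
      (crowdedRep m ε N : ℝ) < c * order N)).card : ℝ) ≤ κ * x := by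
    apply Pool.Agent.TH882.JS.dyadic2 _ κ hκ
    refine ⟨X₀ + 1, fun X hX => (le_trans ?_ (h X (by omega)))⟩
    apply Nat.cast_le.2
    apply card_le_card
    intro N hN
    rw [mem_filter, mem_Ico] at hN ⊢
    obtain ⟨⟨hN1, hN2⟩, hNe, hNl⟩ := hN
    refine ⟨⟨hN1, hN2⟩, hNe, lt_of_le_of_lt ?_ hNl⟩
    apply Nat.cast_le.2
    unfold crowdedRep
    rw [← Set.ncard_coe_finset]
    apply Set.ncard_le_ncard
    · intro p hp
      unfold Pool.Agent.TH882.JS.GA at hp
      rw [mem_coe, mem_filter, mem_Ico] at hp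
      obtain ⟨⟨hp1, hp2⟩, hpA, hpN⟩ := hp
      unfold Pool.Agent.TH882.JS.KP at hpA
      rw [mem_filter] at hpA
      refine ⟨by omega, hpA.2.1, hpN, hpA.2.2.trans ?_⟩
      unfold Pool.Agent.TH882.JS.nb
      rw [← Set.ncard_coe_finset]
      have hfl : ((⌊ε * Real.log X⌋₊ : ℕ) : ℝ) ≤ ε * Real.log N := by
        have hX1 : (1 : ℝ) ≤ X := by
          have : 1 ≤ X := by omega
          exact_mod_cast this
        have hXN : (X : ℝ) ≤ N := by
          have : X ≤ N := by omega
          exact_mod_cast this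
        have h0 : 0 ≤ ε * Real.log X := mul_nonneg hε.le (Real.log_nonneg hX1)
        refine (Nat.floor_le h0).trans ?_
        exact mul_le_mul_of_nonneg_left (Real.log_le_log (by linarith) hXN) hε.le
      apply Set.ncard_le_ncard
      · intro q hq
        rw [mem_coe, mem_filter, mem_Icc] at hq
        obtain ⟨⟨hq1, hq2⟩, hq3, hq4⟩ := hq
        refine ⟨hq3, hq4, ?_⟩
        have e1 : (q : ℝ) ≤ p + (⌊ε * Real.log X⌋₊ : ℕ) := by exact_mod_cast hq2
        have e2 : (p : ℝ) ≤ q + (⌊ε * Real.log X⌋₊ : ℕ) := by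
          have : p ≤ q + ⌊ε * Real.log X⌋₊ := by omega
          exact_mod_cast this
        rw [abs_le]
        constructor <;> linarith
      · apply (Set.finite_Iic ⌊(p : ℝ) + ε * Real.log N⌋₊).subset
        rintro q ⟨-, -, hq⟩
        rw [Set.mem_Iic]
        apply Nat.le_floor
        have h5 := (abs_le.1 hq).2
        linarith
    · apply (finite_toSet (range N)).subset
      rintro p ⟨hp, -⟩
      rw [mem_coe, mem_range]
      exact hp
  obtain ⟨x₀, hx₀⟩ := key
  filter_upwards [eventually_ge_atTop x₀] with x hx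
  refine le_trans ?_ (hx₀ x hx)
  rw [← Set.ncard_coe_finset]
  apply Nat.cast_le.2
  apply Set.ncard_le_ncard _ (finite_toSet _)
  rintro N ⟨h1, h2, h3, h4⟩
  rw [mem_coe, mem_filter, mem_Icc]
  exact ⟨⟨h1, h2⟩, h3, h4⟩

/-- **The order of magnitude of the number of Goldbach representations with an isolated prime, and with
a crowded prime.**

1. For every `L > 0` there is `c > 0` such that all even `N`, apart from a set of natural density zero,
have at least `c N ^ 2 / (φ(N) (log N) ^ 2)` representations as a sum of two primes the first of which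
has no other prime at distance at most `L log N`.
2. For every `m` and all `ε, κ > 0` there is `c > 0` such that for all large `x` all but at most `κ x`
of the even numbers `N ≤ x` have at least `c N ^ 2 / (φ(N) (log N) ^ 2)` representations as a sum of two
primes the first of which has at least `m` other primes at distance at most `ε log N`. -/
theorem result :
    (∀ L : ℝ, 0 < L → ∃ c : ℝ, 0 < c ∧
      Tendsto (fun x : ℕ => ((exceptions (isolatedRep L) c x).ncard : ℝ) / x) atTop (𝓝 0)) ∧
    (∀ (m : ℕ) (ε κ : ℝ), 0 < ε → 0 < κ → ∃ c : ℝ, 0 < c ∧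
      ∀ᶠ x : ℕ in atTop, ((exceptions (crowdedRep m ε) c x).ncard : ℝ) ≤ κ * x) :=
  ⟨isolated, fun m ε κ hε hκ => crowded m ε κ hε hκ⟩

end Pool.Agent.Results.MP_629a14_nt.IsolatedAndCrowdedPrimes
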