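import Pool.Agent.V11251.DS.LinM5
import Pool.Agent.V11251.DS.LinM6

/-!
# Simultaneous Goldbach representations of palindromes with a common prime

The analytic input (the law of the palindromes, second moments of the error for one form, deterministic parts for systems
of linear forms) is in the starting files `Pool.Agent.H373R2.T7`, `Pool.Agent.W93`, `Pool.Agent.TH872`,
`Pool.Agent.Y820.LF`.
-/

set_option autoImplicit false

namespace Pool.Agent.Results.MP_629a14_nt.PalindromesCommonPrimes

open Finset

/-- `v` is a palindrome with exactly `k` digits in base `b`: the digit number `j` (which is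
`v / b ^ j % b`) is equal to the digit number `k - 1 - j`, for all `j < k`. -/
def IsPalindrome (b k v : ℕ) : Prop :=
  b ^ (k - 1) ≤ v ∧ v < b ^ k ∧ ∀ j < k, v / b ^ j % b = v / b ^ (k - 1 - j) % b

open Classical in
/-- The palindromes with exactly `k` digits in base `b`. -/
noncomputable def pal (b k : ℕ) : Finset ℕ := (range (b ^ k)).filter (IsPalindrome b k)

/-- The number of the residues `r` modulo `p` with `r = 0` or `r ≡ Y i` for some `i`. -/
def nu {s : ℕ} (Y : Fin s → ℕ) (p : ℕ) : ℕ := ((range p).filter (fun r => r = 0 ∨ ∃ i, r = Y i % p)).card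

/-- There is no local obstruction: for every prime `p` some residue modulo `p` is different from `0` and from all the
`Y i`. (For `s = 1`: `Y` is even.) -/
def NoObstruction {s : ℕ} (Y : Fin s → ℕ) : Prop := ∀ p : ℕ, p.Prime → nu Y p < p

/-- The partial product of the singular series over the primes `p ≤ z`. -/
noncomputable def sing {s : ℕ} (Y : Fin s → ℕ) (z : ℕ) : ℝ :=
  ∏ p ∈ (Icc 1 z).filter Nat.Prime, (1 - (nu Y p : ℝ) / p) / (1 - 1 / (p : ℝ)) ^ (s + 1)

/-- The primes `p ≤ X` for which all the numbers `Y i - p` are primes. -/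
def common {s : ℕ} (Y : Fin s → ℕ) (X : ℕ) : Finset ℕ :=
  (Icc 1 X).filter (fun p : ℕ => p.Prime ∧ ∀ i, (Y i - p).Prime)

/-- The formula of Hardy and Littlewood: the singular series converges to a number `S > 0`, and the number of the primes
`p ≤ X` for which all the numbers `Y i - p` are primes is `S X / log ^ (s + 1) X`, up to a factor between `1 - ε` and
`1 + ε`. -/
def Formula {s : ℕ} (ε : ℝ) (Y : Fin s → ℕ) (X : ℕ) : Prop :=
  ∃ S : ℝ, 0 < S ∧ Filter.Tendsto (sing Y) Filter.atTop (nhds S) ∧
    |((common Y X).card : ℝ) - S * (X / Real.log X ^ (s + 1))| ≤ ε * (S * (X / Real.log X ^ (s + 1)))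

/-- If there is no local obstruction, then the formula holds for all `X` between `N / M` and `N` which are smaller than
all the `Y i`. -/
def Good {s : ℕ} (ε : ℝ) (M N : ℕ) (Y : Fin s → ℕ) : Prop :=
  NoObstruction Y → ∀ X ≤ N, N ≤ M * X → (∀ i, X < Y i) → Formula ε Y X

open Classical in
/-- Let `s ≥ 1`, bases `b i ≥ 2` and `κ i ≥ 1` (`i < s`), `B`, `M`, `U` and `ε > 0` be fixed. Let `N` be large, let `k i`
be lengths with `N / B ≤ b i ^ k i ≤ B N` and let `0 ≤ c i ≤ B N`. Then all the vectors `(v 1, ..., v s)` of palindromes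
`v i` with exactly `k i` digits in base `b i`, with the exception of a proportion of at most `1 / log ^ U N` of these
vectors, have the following property. Put `Y i = c i + κ i v i` (the palindromes themselves, if `c i = 0` and `κ i = 1`).
If there is no local obstruction, then the formula of Hardy and Littlewood for the number of the simultaneous
representations `Y i = p + p i`, `i < s`, with primes `p 1, ..., p s` and a COMMON prime `p ≤ X`, holds for all `X` between
`N / M` and `N` which are smaller than all the `Y i`. -/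
theorem result (s : ℕ) (hs : 1 ≤ s) (b : Fin s → ℕ) (hb : ∀ i, 2 ≤ b i) (κ : Fin s → ℕ) (hκ : ∀ i, 1 ≤ κ i)
    (B M U : ℕ) (ε : ℝ) (hε : 0 < ε) :
    ∃ N₀ : ℕ, ∀ N, N₀ ≤ N → ∀ k : Fin s → ℕ, (∀ i, N ≤ B * b i ^ k i ∧ b i ^ k i ≤ B * N) →
      ∀ c : Fin s → ℕ, (∀ i, c i ≤ B * N) →
      (((Fintype.piFinset fun i => pal (b i) (k i)).filter fun v => ¬ Good ε M N (fun i => c i + κ i * v i)).card : ℝ) ≤
      ((Fintype.piFinset fun i => pal (b i) (k i)).card : ℝ) / Real.log N ^ U := by
  obtain ⟨N₀, h⟩ := Pool.Agent.V11251.DS.pal_lin1 s hs b hb (fun i => (κ i : ℤ)) (fun _ => -1)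
    (fun i => by have := hκ i; exact_mod_cast (by omega : κ i ≠ 0)) (fun _ => by norm_num) B M U ε hε
  refine ⟨N₀, fun N hN k hk c hc => ?_⟩
  have h1 := h N hN k (fun i => ⟨(hk i).2, (hk i).1⟩) (fun i => (c i : ℤ)) (fun i => by
    rw [abs_of_nonneg (by positivity)]; exact_mod_cast hc i)
  have e1 : (Fintype.piFinset fun i => pal (b i) (k i)) =
      Fintype.piFinset (fun i => Pool.Agent.TH872.Mir.Pals (b i) (k i)) := by
    congr 1
  rw [e1]
  refine le_trans (Nat.cast_le.2 (card_le_card ?_)) h1
  intro v hY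
  rw [mem_filter] at hY ⊢
  refine ⟨hY.1, ?_⟩
  have e2 : ∀ i, (((c i + κ i * v i : ℕ)) : ℤ) = (c i : ℤ) + (κ i : ℤ) * ((v i : ℕ) : ℤ) := fun i => by push_cast; ring
  have h2 := hY.2
  unfold Good at h2
  push Not at h2
  obtain ⟨hobs, X, hX1, hX2, hX3, hX4⟩ := h2
  refine ⟨X, hX1, hX2, ?_, ?_, ?_⟩
  · intro i
    have h3 : (X : ℤ) < ((c i + κ i * v i : ℕ) : ℤ) := by exact_mod_cast hX3 i
    rw [e2] at h3
    constructor
    · by_cases hX0 : X = 0
      · exfalso
        rw [hX0, mul_zero] at hX2
        have h4 : N = 0 := by omega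
        have h5 := (hk i).2
        rw [h4, mul_zero] at h5
        have h6 : 0 < b i ^ k i := by have := hb i; positivity
        omega
      · have h4 : (1 : ℤ) ≤ X := by exact_mod_cast Nat.one_le_iff_ne_zero.2 hX0
        linarith
    · linarith
  · simp only [← e2]
    intro p hp
    rw [Pool.Agent.V11251.DS.gold_nu]
    exact hobs p hp
  · simp only [← e2]
    intro hgood
    exact hX4 (Pool.Agent.V11251.DS.gold_good ε X _ hgood)

end Pool.Agent.Results.MP_629a14_nt.PalindromesCommonPrimes
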